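import Mathlib
import Pool.Agent.V1160.Sirota

/-!
# A ZFC example: sequentially pseudocompact but not selectively sequentially pseudocompact
-/

namespace Pool.Agent.Results.MP_3c9c51_gt.SeqPseudocompact

open Filter Topology Set Pool.Agent.V1160.Sirota

/-- `X` is sequentially pseudocompact: for each sequence of non-empty open sets `U n` there are
an infinite set `J` of indices and a point `x` such that each open neighbourhood `W` of `x`
misses `U n` for only finitely many `n ∈ J`. -/
def SequentiallyPseudocompact (X : Type*) [TopologicalSpace X] : Prop :=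
  ∀ U : ℕ → Set X, (∀ n, IsOpen (U n) ∧ (U n).Nonempty) →
    ∃ J : Set ℕ, J.Infinite ∧ ∃ x : X, ∀ W : Set X, IsOpen W → x ∈ W →
      {n ∈ J | W ∩ U n = ∅}.Finite

/-- `X` is selectively sequentially pseudocompact: for each sequence of non-empty open sets
`U n` one can choose points `x n ∈ U n` such that `x` has a convergent subsequence. -/
def SelectivelySequentiallyPseudocompact (X : Type*) [TopologicalSpace X] : Prop :=
  ∀ U : ℕ → Set X, (∀ n, IsOpen (U n) ∧ (U n).Nonempty) →
    ∃ x : ℕ → X, (∀ n, x n ∈ U n) ∧ ∃ φ : ℕ → ℕ, StrictMono φ ∧ ∃ y, Tendsto (x ∘ φ) atTop (𝓝 y)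

theorem seqPseudocompact : SequentiallyPseudocompact B := by
  classical
  intro U hU
  choose hUo u hu using hU
  choose F hF using fun n => nhds_basis_B ((hUo n).mem_nhds (hu n))
  set A : Set T := ⋃ n, (F n : Set T) with hA
  have hAc : A.Countable := countable_iUnion fun n => (F n).countable_toSet
  have : Countable A := hAc.to_subtype
  -- convergence of the patterns
  obtain ⟨c, φ, hφ, hc⟩ := CompactSpace.tendsto_subseq
    (fun (n : ℕ) (a : A) => ((if (a : T) ∈ F n then (1 : ZMod 2) else 0), (u n : T → ZMod 2) a))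
  rw [tendsto_pi_nhds] at hc
  obtain ⟨x₀, hx₀B, hx₀⟩ := exists_countable hAc
    (fun t => if h : t ∈ A then (c ⟨t, h⟩).2 else 0)
  have hx₀' : ∀ (t : T) (ht : t ∈ A), x₀ t = (c ⟨t, ht⟩).2 := fun t ht => by
    rw [hx₀ t ht, dif_pos ht]
  refine ⟨range φ, infinite_range_of_injective hφ.injective, ⟨x₀, hx₀B⟩, fun W hW hxW => ?_⟩
  obtain ⟨E, hE⟩ := nhds_basis_B (hW.mem_nhds hxW)
  -- eventually the pattern is the limit pattern on `E ∩ A`
  have hev : ∀ᶠ n in atTop, ∀ t ∈ E, ∀ ht : t ∈ A,
      ((if t ∈ F (φ n) then (1 : ZMod 2) else 0), (u (φ n) : T → ZMod 2) t) = c ⟨t, ht⟩ := by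
    rw [eventually_all_finset]
    intro t _
    by_cases ht : t ∈ A
    · have h1 := hc ⟨t, ht⟩
      rw [nhds_discrete, tendsto_pure] at h1
      filter_upwards [h1] with n hn _ using hn
    · exact Eventually.of_forall fun n ht' => absurd ht' ht
  obtain ⟨N, hN⟩ := eventually_atTop.1 hev
  refine ((finite_Iio N).image φ).subset ?_
  rintro _ ⟨⟨n, rfl⟩, hn⟩
  refine mem_image_of_mem φ ?_
  by_contra hle
  have hle : N ≤ n := not_lt.1 hle
  -- a common point
  obtain ⟨b, hbB, hb⟩ := exists_countable (A := (E : Set T) ∪ (F (φ n) : Set T))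
    (E.countable_toSet.union (F (φ n)).countable_toSet)
    (fun t => if t ∈ F (φ n) then (u (φ n) : T → ZMod 2) t else x₀ t)
  have hbU : (⟨b, hbB⟩ : B) ∈ U (φ n) := by
    refine hF _ _ fun i hi => ?_
    change b i = _
    rw [hb i (Or.inr hi), if_pos hi]
  have hbW : (⟨b, hbB⟩ : B) ∈ W := by
    refine hE _ fun i hi => ?_
    change b i = x₀ i
    rw [hb i (Or.inl hi)]
    split_ifs with hiF
    · have hiA : i ∈ A := mem_iUnion.2 ⟨φ n, hiF⟩
      have h1 := hN n hle i hi hiA
      rw [hx₀' i hiA, ← h1]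
    · rfl
  have : (⟨b, hbB⟩ : B) ∈ W ∩ U (φ n) := ⟨hbW, hbU⟩
  rw [hn] at this
  exact this

theorem not_ssp : ¬ SelectivelySequentiallyPseudocompact B := by
  classical
  intro h
  have := infinite_T
  let t : ℕ ↪ T := Infinite.natEmbedding T
  let U : ℕ → Set B := fun n => {z : B | ∀ i ∈ (Finset.range (n + 1)).image t,
    (z : T → ZMod 2) i = (fun s => if s = t n then 1 else 0 : T → ZMod 2) i}
  obtain ⟨x, hx, φ, hφ, y, hy⟩ := h U fun n => ⟨isOpen_cyl _ _, by
    obtain ⟨b, hbB, hb⟩ := exists_countable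
      (Finset.countable_toSet ((Finset.range (n + 1)).image t))
      (fun s => if s = t n then 1 else 0)
    exact ⟨⟨b, hbB⟩, fun i hi => hb i hi⟩⟩
  refine no_convergent (x ∘ φ) ?_ y hy
  have hxinj : ∀ i j, i < j → x i ≠ x j := by
    intro i j hij heq
    have h1 := hx i (t i) (Finset.mem_image_of_mem t (Finset.mem_range.2 (by omega)))
    have h2 := hx j (t i) (Finset.mem_image_of_mem t (Finset.mem_range.2 (by omega)))
    have h3 : t i ≠ t j := fun h => hij.ne (t.injective h)
    simp only [if_true] at h1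
    simp only [if_neg h3] at h2
    rw [heq, h2] at h1
    exact absurd h1 (by decide)
  intro i j hij
  rcases lt_trichotomy i j with h | h | h
  · exact absurd hij (hxinj _ _ (hφ h))
  · exact h
  · exact absurd hij.symm (hxinj _ _ (hφ h))

/-- **Q1 has a positive answer**: there is (in ZFC) a Hausdorff abelian topological group which
is sequentially pseudocompact but not selectively sequentially pseudocompact. -/
theorem result : ∃ (G : Type) (_ : AddCommGroup G) (_ : TopologicalSpace G)
    (_ : IsTopologicalAddGroup G) (_ : T2Space G),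
    SequentiallyPseudocompact G ∧ ¬ SelectivelySequentiallyPseudocompact G :=
  ⟨B, inferInstance, inferInstance, inferInstance, inferInstance, seqPseudocompact, not_ssp⟩

end Pool.Agent.Results.MP_3c9c51_gt.SeqPseudocompact
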